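import Pool.Agent.H637_NO.Fin2

/-!
# Projective absoluteness for proper forcings fails under determinacy

There are a `Σ^1_3` sentence `φ` and a countable transitive model `V` of ZFC, in which boldface
`Π^1_{n+1}`-determinacy is true for every `n` such that it is true in the universe, with a proper
`Σ^1_2` forcing `P` such that `φ` fails in `V` and holds in all generic extensions of `V` by `P`.

The sentence `φ` says that some real is in no countable transitive model of ZF. In `V` all reals
are in such models. The forcing `P` adds a real that is in no transitive model of ZF whose height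
is an ordinal of `V`.
-/

set_option autoImplicit false

namespace Pool.Agent.Results.MP_4e3283_lc.ProperNonabsolute

open Pool.Agent.W868 Pool.Agent.W868.GM Pool.Agent.H637_NO Pool.Agent.R597 Pool.Agent.Y588

/-- Main theorem. -/
theorem result : ∃ φ : Fm 0 0, (∀ n, Cls true (n + 3) φ) ∧ ∃ V : Set ZFSet.{0}, V.Countable ∧
    IsZFC V ∧ (∀ n, PiDet Set.univ (n + 1) → PiDet (Reals V) (n + 1)) ∧
      ∃ P Le : ZFSet.{0}, IsForcing V P Le ∧ Sig12 V P Le ∧ Proper V P Le ∧
        ¬ Tr (Reals V) φ ![] ∧ (∃ G, IsGeneric V P Le G) ∧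
          ∀ G, IsGeneric V P Le G → Tr (Reals (ext V G)) φ ![] := by
  obtain ⟨φ, h1, h2⟩ := exists_sentence
  obtain ⟨V, hG, h3⟩ := exists_V
  have hV := hG.zfc
  have hfor := (s_C1 V hG).1
  refine ⟨φ, fun n => ?_, V, hG.ctb, hV, fun n => h3 (n + 1), Pf V, Lf V, hfor, s_C2 V hG,
    s_C3 V hG, ?_, ?_, ?_⟩
  · have h4 := d2_mono' h1 n
    rwa [Nat.add_comm] at h4
  · rw [h2 V hV]
    rintro ⟨x, hx⟩
    exact hx (psi2_V hG x.1 x.2)
  · obtain ⟨t, ht, -⟩ := hfor.top
    obtain ⟨G, hgen, -⟩ := exists_gen hG.ctb hfor ht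
    exact ⟨G, hgen⟩
  · intro G hgen
    rw [h2 _ (isZFC_ext hV hfor hgen)]
    exact not_psi2 hCg hG s_C1 s_C4 hgen

end Pool.Agent.Results.MP_4e3283_lc.ProperNonabsolute
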